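import Pool.Agent.U20.LP.RedB
import Pool.Agent.H642R2.TMSim

/-!
# Recognising `k`-locally planar graphs is NP-hard for every fixed `k ≥ 3`

A drawing is `k`-locally planar if no path with at most `k` edges has a self-crossing; a graph is
`k`-locally planar if it has such a drawing.  The reduction is from 3SAT, through a betweenness
problem on a circle.

The graph has an apex adjacent to many vertices, and the rotation of these spokes at the apex
encodes the order of the elements.  In a `k`-locally planar drawing the spokes do not cross, and
two disjoint paths between spokes that cross neither each other nor the spokes at each other's ends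
do not separate each other (a topological wheel lemma, proved with variations of the argument along
paths).

For `k ≥ 4`, stars whose legs have `k - 2` edges transfer the order of their leaves to partners of
the leaves, and two such stars with adjacent centres force four leaves into a given cyclic order.
For `k = 3` the order is transferred through a star whose leaves have neighbours on both sides, and
the cyclic order of four vertices is forced by a fan.

Conversely, from an order of the elements the graph is drawn with straight lines and with the
vertices on a parabola, the inner vertices of the legs being close to the centres of the stars; any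
two crossing edges are then not on a common path with `k` edges.
-/

set_option autoImplicit false

namespace Pool.Agent.Results.MP_32ee78_lc.LocallyPlanar

open Pool.Agent.NPC Pool.Agent.U20.LP Pool.Agent.H622R2

/-- The recognition problem of `k`-locally planar graphs.  The input is the adjacency matrix of a
finite simple graph. -/
def Recognition (k : ℕ) (M : List (List Bool)) : Prop := LocPlanar k (matGraph M)

/-- The class `P`. -/
def InP (L : Set (List Bool)) : Prop :=
  ∃ F : List Bool → List Bool, PolyTime F ∧ ∀ x, x ∈ L ↔ F x = [true]

/-- **For every fixed `k ≥ 3` it is NP-hard to decide whether a graph is `k`-locally planar**, and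
a polynomial-time algorithm for this problem exists only if `P = NP`. -/
theorem result (k : ℕ) (hk : 3 ≤ k) :
    NPHardP (Recognition k) ∧
    ((∃ F : List Bool → List Bool, PolyTime F ∧
        ∀ M : List (List Bool), F (bits M) = [true] ↔ LocPlanar k (matGraph M)) →
      ∀ L : Set (List Bool), InNP L → InP L) := by
  have hard : HardI (Recognition k) := hardI_locPlanar hk
  refine ⟨hard.toNPHardP, ?_⟩
  rintro ⟨F, hF, hdec⟩
  intro L hL
  obtain ⟨f, hf, hL⟩ := hard L hL
  refine ⟨fun x => F (bits (f x)), ?_, fun x => ?_⟩
  · have h1 : PC (fun x : List Bool => x) (fun x : List Bool => x) (fun x => bits (f x)) := hf
    exact PC.toPolyTime (PC.comp (g := F) (f := fun x => bits (f x))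
      (Pool.Agent.H642R2.TMSim.polyTime_toPC hF) h1)
  · rw [hL x]
    exact (hdec (f x)).symm

end Pool.Agent.Results.MP_32ee78_lc.LocallyPlanar
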